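import Pool.Agent.Mg.Fd228e7p.G155e87

namespace Pool.Agent.Results.MP_d228e7_nt.LowerTail

theorem result : ∃ C : ℝ, ∃ y₀ : ℕ, ∀ X y : ℕ, y₀ ≤ y → ∀ t : ℝ, C ≤ t →
    t ≤ Real.exp (-Real.eulerMascheroniConstant) * Real.log (Real.log (Real.log y)) - C →
    ∃ θ : ℝ, |θ| ≤ C ∧
      (({n : ℕ | X < n ∧ n ≤ X + y ∧
        ∑ a ∈ (N435e839e.selected true n).filter (· ≤ y), (1 : ℝ) / a ≤
          Real.exp (-Real.eulerMascheroniConstant) * Real.log (Real.log y) - t}.ncard : ℕ) : ℝ) =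
        y * Real.exp (-Real.exp (Real.exp (Real.exp Real.eulerMascheroniConstant * t + θ))) := by
  obtain ⟨C, y₀, h⟩ := Pool.Agent.MP_d228e7_nt.T.tail
  refine ⟨C, y₀, fun X y hy t h1 h2 => ?_⟩
  obtain ⟨θ, h3, h4⟩ := h X y hy t h1 h2
  refine ⟨θ, h3, Eq.trans ?_ h4⟩
  rw [← Set.ncard_coe_finset]
  congr 2
  ext n
  simp only [Finset.coe_filter, Finset.mem_Ioc, Set.mem_ofPred_eq, and_assoc,
    Pool.Agent.MP_d228e7_nt.T.ss_eq, Pool.Agent.MP_d228e7_nt.T.eg]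

end Pool.Agent.Results.MP_d228e7_nt.LowerTail
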