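import Pool.Agent.Mg.Fd228e7p.Gbd53b9

namespace Pool.Agent.Results.MP_d228e7_nt.NormalOrder

theorem result : ∃ c C : ℝ, 0 < c ∧ 0 < C ∧ ∀ X y : ℕ, 8 ≤ y → ∀ t : ℝ, C ≤ t →
    (({n : ℕ | X < n ∧ n ≤ X + y ∧
      t < |∑ a ∈ (N435e839e.selected true n).filter (· ≤ y), (1 : ℝ) / a -
        Real.exp (-Real.eulerMascheroniConstant) * Real.log (Real.log y)|}.ncard : ℕ) : ℝ) ≤
      y * Real.exp (-Real.exp (Real.exp (c * t))) +
        (y : ℝ) ^ (1 - c / Real.log (2 + Real.log (Real.log y) / t) ^ 2) := by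
  obtain ⟨c, C, h0, h1, h⟩ := Pool.Agent.MP_d228e7_nt.T.normal
  refine ⟨c, C, h0, h1, fun X y hy t ht => le_trans (le_of_eq ?_) (h X y hy t ht)⟩
  rw [← Set.ncard_coe_finset]
  congr 2
  ext n
  simp only [Finset.coe_filter, Finset.mem_Ioc, Set.mem_ofPred_eq, and_assoc,
    Pool.Agent.MP_d228e7_nt.T.ss_eq, Pool.Agent.MP_d228e7_nt.T.eg]

end Pool.Agent.Results.MP_d228e7_nt.NormalOrder
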